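import Pool.Agent.W523.LV.Stmts
import Pool.Agent.H394R3.BC.Ker

/-!
# PROJECT LV (MP_a10c55_nt), LV-EB: Taylor bounds
-/

set_option autoImplicit false

open Finset

namespace Pool.Agent.W683.LV

open Pool.Agent.H96R3.BC (vv UU CC cf Wts Bf EE NN KK mem_CC UU_nonneg UU_mono UU_pos one_le_UU UU_sq
  vv_mem vv_nonneg)
open Pool.Agent.H394R3.BC (Ker Ker_taylor fac_pos one_le_fac)
open Pool.Agent.W523.LV

/-- Taylor bound for finitely many masses with vanishing moments -/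
theorem aug_taylor (n m : ℕ) (S : Finset ℕ) (A u : ℕ → ℝ) (α β x y a b v : ℝ) (ha : 0 < a)
    (hu : ∀ i ∈ S, a ≤ u i ∧ u i ≤ b) (hx : a ≤ x ∧ x ≤ b) (hy : a ≤ y ∧ y ≤ b)
    (hv : 0 ≤ v)
    (hm : ∀ k < m, ∑ i ∈ S, A i * (u i - a) ^ k + α * (x - a) ^ k - β * (y - a) ^ k = 0) :
    |∑ i ∈ S, A i * Ker n (u i) v + α * Ker n x v - β * Ker n y v| ≤
      (b - a) ^ m * (v / a) ^ (((n + m : ℕ) : ℝ) / 2) * (∑ i ∈ S, |A i| + |α| + |β|) := by
  set T : ℝ → ℝ := fun w => ∑ k ∈ range m, (w - a) ^ k / (k.factorial : ℝ) *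
    ((-1) ^ k * Ker (n + k) a v) with hT
  set E : ℝ := (b - a) ^ m * (v / a) ^ (((n + m : ℕ) : ℝ) / 2) with hE
  have hab : a ≤ b := hx.1.trans hx.2
  have hrem : ∀ w, a ≤ w → w ≤ b → |Ker n w v - T w| ≤ E := by
    intro w h1 h2
    refine (Ker_taylor n m ha le_rfl h1 hv).trans ?_
    rw [hE, abs_of_nonneg (by linarith : 0 ≤ w - a)]
    have h3 : (0 : ℝ) ≤ (v / a) ^ (((n + m : ℕ) : ℝ) / 2) := Real.rpow_nonneg (by positivity) _
    refine mul_le_mul_of_nonneg_right ?_ h3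
    refine (div_le_self (pow_nonneg (by linarith) m) (one_le_fac m)).trans ?_
    exact pow_le_pow_left₀ (by linarith) (by linarith) m
  have hE0 : 0 ≤ E := (abs_nonneg _).trans (hrem a le_rfl hab)
  have hTs : ∑ i ∈ S, A i * T (u i) + α * T x - β * T y = 0 := by
    have e1 : ∑ i ∈ S, A i * T (u i) = ∑ k ∈ range m, (∑ i ∈ S, A i * (u i - a) ^ k) *
        ((1 / (k.factorial : ℝ)) * ((-1) ^ k * Ker (n + k) a v)) := by
      simp only [hT, Finset.mul_sum, Finset.sum_mul]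
      rw [Finset.sum_comm]
      refine Finset.sum_congr rfl fun k _ => Finset.sum_congr rfl fun i _ => ?_
      ring
    have e2 : ∀ c w : ℝ, c * T w = ∑ k ∈ range m, (c * (w - a) ^ k) *
        ((1 / (k.factorial : ℝ)) * ((-1) ^ k * Ker (n + k) a v)) := by
      intro c w
      simp only [hT, Finset.mul_sum]
      refine Finset.sum_congr rfl fun k _ => ?_
      ring
    rw [e1, e2, e2, ← Finset.sum_add_distrib, ← Finset.sum_sub_distrib]
    refine Finset.sum_eq_zero fun k hk => ?_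
    rw [← add_mul, ← sub_mul, hm k (Finset.mem_range.1 hk), zero_mul]
  have hsplit : ∑ i ∈ S, A i * Ker n (u i) v + α * Ker n x v - β * Ker n y v =
      ∑ i ∈ S, A i * (Ker n (u i) v - T (u i)) + α * (Ker n x v - T x) - β * (Ker n y v - T y) := by
    have e3 : ∑ i ∈ S, A i * (Ker n (u i) v - T (u i)) =
        ∑ i ∈ S, A i * Ker n (u i) v - ∑ i ∈ S, A i * T (u i) := by
      rw [← Finset.sum_sub_distrib]
      exact Finset.sum_congr rfl fun i _ => by ring
    rw [e3]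
    linarith
  rw [hsplit]
  have b1 : |∑ i ∈ S, A i * (Ker n (u i) v - T (u i))| ≤ E * ∑ i ∈ S, |A i| := by
    refine (Finset.abs_sum_le_sum_abs _ _).trans ?_
    rw [Finset.mul_sum]
    refine Finset.sum_le_sum fun i hi => ?_
    rw [abs_mul, mul_comm]
    exact mul_le_mul_of_nonneg_right (hrem _ (hu i hi).1 (hu i hi).2) (abs_nonneg _)
  have b2 : |α * (Ker n x v - T x)| ≤ E * |α| := by
    rw [abs_mul, mul_comm]
    exact mul_le_mul_of_nonneg_right (hrem _ hx.1 hx.2) (abs_nonneg _)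
  have b3 : |β * (Ker n y v - T y)| ≤ E * |β| := by
    rw [abs_mul, mul_comm]
    exact mul_le_mul_of_nonneg_right (hrem _ hy.1 hy.2) (abs_nonneg _)
  have h1 := abs_le.1 b1
  have h2 := abs_le.1 b2
  have h3 := abs_le.1 b3
  rw [abs_le]
  constructor <;> nlinarith

lemma step_le {j₀ j : ℕ} (hj0 : 1 ≤ j₀) (hj : j₀ ≤ j) :
    0 ≤ UU j₀ (j + 1) - UU j₀ j ∧ UU j₀ (j + 1) - UU j₀ j ≤ 1 := by
  have h1 := UU_mono (j₀ := j₀) (show j ≤ j + 1 by omega)
  have h2 := one_le_UU hj0 hj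
  have h3 := UU_sq j₀ j
  have h4 := UU_sq j₀ (j + 1)
  have h5 : (1 : ℝ) ≤ j₀ := by exact_mod_cast hj0
  have h6 : UU j₀ (j + 1) ^ 2 - UU j₀ j ^ 2 ≤ 1 := by
    rw [h3, h4, ← sub_div]
    rw [div_le_one (by linarith)]
    push_cast
    linarith
  constructor
  · linarith
  · nlinarith

/-- from the Taylor bound to the weight `N4` -/
theorem to_N4 {Q j₀ j : ℕ} (hQ : 1 ≤ Q) (hj0 : 1 ≤ j₀) (hj : j₀ ≤ j) {v X M : ℝ} (hv : 0 ≤ v)
    (hM : 0 ≤ M)
    (h : ∀ m, m ≤ 4 * Q + 4 → X ≤ (UU j₀ (j + 1) - UU j₀ j) ^ m *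
      (v / UU j₀ j) ^ (((4 * Q + 3 + m : ℕ) : ℝ) / 2) * M) :
    X ≤ ej Q j₀ j * N4 Q v * M := by
  obtain ⟨s1, s2⟩ := step_le hj0 hj
  have ha := one_le_UU hj0 hj
  have ha0 : 0 < UU j₀ j := by linarith
  by_cases hv1 : v ≤ 1
  · have h1 := h (4 * Q + 3) (by omega)
    have e1 : (((4 * Q + 3 + (4 * Q + 3) : ℕ) : ℝ) / 2) = ((4 * Q + 3 : ℕ) : ℝ) := by
      push_cast; ring
    rw [e1, Real.rpow_natCast] at h1
    refine h1.trans (mul_le_mul_of_nonneg_right ?_ hM)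
    unfold ej N4
    rw [if_pos hv1, div_pow]
    have e2 : (UU j₀ (j + 1) - UU j₀ j) ^ (4 * Q + 3) ≤ (UU j₀ (j + 1) - UU j₀ j) ^ (4 * Q - 3) :=
      pow_le_pow_of_le_one s1 s2 (by omega)
    have e3 : UU j₀ j ^ (4 * Q) ≤ UU j₀ j ^ (4 * Q + 3) := pow_le_pow_right₀ ha (by omega)
    calc (UU j₀ (j + 1) - UU j₀ j) ^ (4 * Q + 3) * (v ^ (4 * Q + 3) / UU j₀ j ^ (4 * Q + 3))
        ≤ (UU j₀ (j + 1) - UU j₀ j) ^ (4 * Q - 3) * (v ^ (4 * Q + 3) / UU j₀ j ^ (4 * Q)) := by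
          refine mul_le_mul e2 ?_ (by positivity) (by positivity)
          exact div_le_div_of_nonneg_left (by positivity) (by positivity) e3
      _ = _ := by ring
  · have h1 := h (4 * Q - 3) (by omega)
    have e1 : (((4 * Q + 3 + (4 * Q - 3) : ℕ) : ℝ) / 2) = ((4 * Q : ℕ) : ℝ) := by
      rw [show 4 * Q + 3 + (4 * Q - 3) = 8 * Q by omega]
      push_cast; ring
    rw [e1, Real.rpow_natCast] at h1
    refine h1.trans (le_of_eq ?_)
    unfold ej N4
    rw [if_neg hv1, div_pow]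
    ring

lemma card_ge {Q j : ℕ} (hQ : 1 ≤ Q) : (j + 1) ^ (2 * Q - 1) ≤ (CC Q j).card := by
  unfold CC
  rw [Nat.card_Ioc]
  have e1 : 2 * Q = (2 * Q - 1) + 1 := by omega
  have h1 : (j + 1) ^ (2 * Q) = (j + 1) ^ (2 * Q - 1) * (j + 1) := by
    conv_lhs => rw [e1]
    exact pow_succ _ _
  have h2 : j ^ (2 * Q) = j ^ (2 * Q - 1) * j := by
    conv_lhs => rw [e1]
    exact pow_succ _ _
  have h3 : j ^ (2 * Q - 1) ≤ (j + 1) ^ (2 * Q - 1) := Nat.pow_le_pow_left (by omega) _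
  have h4 : j ^ (2 * Q - 1) * j ≤ (j + 1) ^ (2 * Q - 1) * j := Nat.mul_le_mul_right j h3
  have h5 : (j + 1) ^ (2 * Q - 1) * (j + 1) = (j + 1) ^ (2 * Q - 1) * j + (j + 1) ^ (2 * Q - 1) := by
    ring
  omega

lemma one_le_log_CC' {Q j₀ j n : ℕ} (hQ : 1 ≤ Q) (hj0 : 3 ≤ j₀) (hj : j₀ ≤ j) (hn : n ∈ CC Q j) :
    1 ≤ Real.log n := by
  have h1 : 3 ≤ n := by
    have h2 := (mem_CC.1 hn).1
    have h3 : j ≤ j ^ (2 * Q) := Nat.le_self_pow (by omega) _
    omega
  have h2 : (3:ℝ) ≤ n := by exact_mod_cast h1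
  rw [Real.le_log_iff_exp_le (by linarith)]
  have := Real.exp_one_lt_d9
  linarith

theorem taskEB : TaskEB := by
  constructor
  · intro Q j₀ C a0 w hQ hj0 hC hw j hj u hu1 hu2 v hv
    have ha0 : 0 < UU j₀ j := UU_pos (by omega) hj
    have hN : 0 ≤ N4 Q v := by unfold N4; split_ifs <;> positivity
    have key : |EE Q j₀ w j u v| ≤ ej Q j₀ j * N4 Q v * (1 + C) := by
      refine to_N4 hQ (by omega) hj hv (by linarith) fun m hm => ?_
      have h1 := aug_taylor (4 * Q + 3) m (CC Q j) (fun p => -(w p u)) (vv Q j₀) 1 0 u u (UU j₀ j)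
        (UU j₀ (j + 1)) v ha0 (fun i hi => vv_mem hQ hi) ⟨hu1, hu2⟩ ⟨hu1, hu2⟩ hv (by
          intro k hk
          have h2 := hw.mom j hj u hu1 hu2 ((Polynomial.X - Polynomial.C (UU j₀ j)) ^ k) (by
            rw [Polynomial.natDegree_pow, Polynomial.natDegree_X_sub_C, mul_one]
            omega)
          simp only [Polynomial.eval_pow, Polynomial.eval_sub, Polynomial.eval_X,
            Polynomial.eval_C] at h2
          simp only [neg_mul, Finset.sum_neg_distrib, h2]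
          ring)
      have e1 : ∑ i ∈ CC Q j, (fun p => -(w p u)) i * Ker (4 * Q + 3) (vv Q j₀ i) v +
          1 * Ker (4 * Q + 3) u v - 0 * Ker (4 * Q + 3) u v = EE Q j₀ w j u v := by
        unfold EE
        have e2 : ∀ x y : ℝ, KK (4 * Q + 4) x y = Ker (4 * Q + 3) x y := fun x y => rfl
        simp only [e2, neg_mul, Finset.sum_neg_distrib]
        ring
      rw [e1] at h1
      refine h1.trans ?_
      have h3 := hw.tot j hj u hu1 hu2
      have h4 : ∑ i ∈ CC Q j, |(fun p => -(w p u)) i| + |(1 : ℝ)| + |(0 : ℝ)| ≤ 1 + C := by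
        simp only [abs_neg, abs_one, abs_zero]
        linarith
      refine mul_le_mul_of_nonneg_left h4 ?_
      have h5 := (step_le (j₀ := j₀) (by omega) hj).1
      exact mul_nonneg (pow_nonneg h5 _) (Real.rpow_nonneg (by positivity) _)
    calc _ ≤ _ := key
      _ = _ := by ring
  · intro Q j₀ s hQ hj0 hs j hj v hv
    have ha0 : 0 < UU j₀ j := UU_pos (by omega) hj
    have hab := UU_mono (j₀ := j₀) (show j ≤ j + 1 by omega)
    have hb0 : 0 ≤ UU j₀ (j + 1) := UU_nonneg _ _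
    have key : |Sj2 Q j₀ s j v| ≤ ej Q j₀ j * N4 Q v * ((CC Q j).card * UU j₀ (j + 1) ^ 2) := by
      refine to_N4 hQ (by omega) hj hv (by positivity) fun m hm => ?_
      have h1 := aug_taylor (4 * Q + 3) m (CC Q j) (fun p => s p * (vv Q j₀ p) ^ 2) (vv Q j₀)
        (BB Q j₀ s j) (BB Q j₀ s (j + 1)) (UU j₀ j) (UU j₀ (j + 1)) (UU j₀ j)
        (UU j₀ (j + 1)) v ha0 (fun i hi => vv_mem hQ hi) ⟨le_rfl, hab⟩ ⟨hab, le_rfl⟩ hv (by
          intro k hk
          have h2 := hs.mom j hj ((Polynomial.X - Polynomial.C (UU j₀ j)) ^ k) (by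
            rw [Polynomial.natDegree_pow, Polynomial.natDegree_X_sub_C, mul_one]
            omega)
          simp only [Polynomial.eval_pow, Polynomial.eval_sub, Polynomial.eval_X,
            Polynomial.eval_C] at h2
          linarith)
      have e1 : ∑ i ∈ CC Q j, (fun p => s p * (vv Q j₀ p) ^ 2) i * Ker (4 * Q + 3) (vv Q j₀ i) v +
          BB Q j₀ s j * Ker (4 * Q + 3) (UU j₀ j) v -
            BB Q j₀ s (j + 1) * Ker (4 * Q + 3) (UU j₀ (j + 1)) v = Sj2 Q j₀ s j v := rfl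
      rw [e1] at h1
      refine h1.trans ?_
      have h4 : ∑ i ∈ CC Q j, |(fun p => s p * (vv Q j₀ p) ^ 2) i| + |BB Q j₀ s j| +
          |BB Q j₀ s (j + 1)| ≤ (CC Q j).card * UU j₀ (j + 1) ^ 2 := by
        have c1 : ∑ i ∈ CC Q j, |(fun p => s p * (vv Q j₀ p) ^ 2) i| ≤
            (CC Q j).card * (1 / 2 * UU j₀ (j + 1) ^ 2) := by
          rw [← nsmul_eq_mul, ← Finset.sum_const]
          refine Finset.sum_le_sum fun n hn => ?_
          have g1 := one_le_log_CC' hQ hj0 hj hn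
          have g2 := hs.bd n
          have g3 : 1 / 2 / (Real.log n) ^ 2 ≤ 1 / 2 := by
            refine div_le_self (by norm_num) ?_
            nlinarith
          have g4 := vv_mem (j₀ := j₀) hQ hn
          simp only
          rw [abs_mul, abs_of_nonneg (sq_nonneg (vv Q j₀ n))]
          exact mul_le_mul (g2.trans g3) (pow_le_pow_left₀ (vv_nonneg _ _ _) g4.2 2)
            (sq_nonneg _) (by norm_num)
        have c2 := hs.bb j hj
        have c3 := hs.bb (j + 1) (by omega)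
        have k1 : ((j : ℝ)) ^ (2 * Q - 1) ≤ (CC Q j).card := by
          have := (Nat.pow_le_pow_left (show j ≤ j + 1 by omega) (2 * Q - 1)).trans
            (card_ge (j := j) hQ)
          exact_mod_cast this
        have k2 : (((j + 1 : ℕ) : ℝ)) ^ (2 * Q - 1) ≤ (CC Q j).card := by
          exact_mod_cast card_ge (j := j) hQ
        have k3 : UU j₀ j ^ 2 ≤ UU j₀ (j + 1) ^ 2 := pow_le_pow_left₀ ha0.le hab 2
        have k4 : 1 / 4 * (j : ℝ) ^ (2 * Q - 1) * UU j₀ j ^ 2 ≤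
            1 / 4 * ((CC Q j).card * UU j₀ (j + 1) ^ 2) := by
          have := mul_le_mul k1 k3 (by positivity) (by positivity)
          linarith
        have k5 : 1 / 4 * ((j + 1 : ℕ) : ℝ) ^ (2 * Q - 1) * UU j₀ (j + 1) ^ 2 ≤
            1 / 4 * ((CC Q j).card * UU j₀ (j + 1) ^ 2) := by
          have := mul_le_mul_of_nonneg_right k2 (show 0 ≤ UU j₀ (j + 1) ^ 2 by positivity)
          linarith
        linarith
      refine mul_le_mul_of_nonneg_left h4 ?_
      have h5 := (step_le (j₀ := j₀) (by omega) hj).1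
      exact mul_nonneg (pow_nonneg h5 _) (Real.rpow_nonneg (by positivity) _)
    calc _ ≤ _ := key
      _ = _ := by ring

end Pool.Agent.W683.LV
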